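import Mathlib

set_option autoImplicit false

open Finset

namespace Pool.Agent.Results.MP_59a663_pr.NoConstantSparsity

/-- Outcomes: for each coordinate `i` and each block `j` a sign and a position. -/
abbrev Sample (n ζ b : ℕ) := Fin n → Fin ζ → Bool × Fin b

/-- The sign `±1`. -/
def sgn (s : Bool) : ℝ := if s then 1 else -1

/-- The SparseStack matrix: block `j` of row `i` is `ζ ^ (-1/2) ρ_{ij} e_{s_{ij}}`. The columns are
indexed by pairs (block, position). -/
noncomputable def sparseStack {n ζ b : ℕ} (ω : Sample n ζ b) :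
    Matrix (Fin n) (Fin ζ × Fin b) ℝ :=
  fun i p => if (ω i p.1).2 = p.2 then (Real.sqrt ζ)⁻¹ * sgn (ω i p.1).1 else 0

/-- The probability of an event when all signs and positions are independent and uniform, i.e.
when the outcome is uniformly distributed. -/
noncomputable def prob {n ζ b : ℕ} (E : Set (Sample n ζ b)) : ℝ :=
  (E.ncard : ℝ) / Fintype.card (Sample n ζ b)

/-- Square of the Euclidean norm. -/
def normSq {ι : Type} [Fintype ι] (x : ι → ℝ) : ℝ := ∑ i, x i ^ 2

/-- Average over a finite type. -/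
noncomputable def avg {S : Type} [Fintype S] (f : S → ℝ) : ℝ := (∑ s, f s) / Fintype.card S

section Avg

lemma sum_marg {I J A : Type} [Fintype I] [Fintype J] [Fintype A] [DecidableEq I] [DecidableEq J]
    (ι : J → I) (hι : Function.Injective ι) (F : (J → A) → ℝ) :
    ∑ p : I → A, F (p ∘ ι) =
      (Fintype.card A : ℝ) ^ (Fintype.card I - Fintype.card J) * ∑ q : J → A, F q := by
  classical
  let P : I → Prop := fun i => i ∈ Set.range ι
  let e := Equiv.piEquivPiSubtypeProd P (fun _ => A)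
  let k : J ≃ {i // P i} := Equiv.ofInjective ι hι
  have h1 : ∑ p : I → A, F (p ∘ ι) =
      ∑ fg : (({i // P i} → A) × ({i // ¬ P i} → A)), F (fg.1 ∘ k) := by
    refine Fintype.sum_equiv e _ _ (fun p => ?_)
    rfl
  rw [h1, Fintype.sum_prod_type]
  simp only [Finset.sum_const, Finset.card_univ, nsmul_eq_mul]
  rw [← Finset.mul_sum, Fintype.card_fun]
  congr 1
  · push_cast
    congr 1
    rw [Fintype.card_subtype_compl]
    congr 1
    exact (Fintype.card_congr k).symm
  · exact Fintype.sum_equiv (Equiv.arrowCongr k.symm (Equiv.refl A)) _ _ (fun p => rfl)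

lemma avg_marg {n ζ b : ℕ} (hb : 0 < b) {J : Type} [Fintype J] [DecidableEq J]
    (ι : J → Fin n × Fin ζ) (hι : Function.Injective ι) (F : (J → Fin b) → ℝ) :
    avg (fun ω : Sample n ζ b => F (fun j => (ω (ι j).1 (ι j).2).2)) = avg F := by
  classical
  have hcard : Fintype.card J ≤ Fintype.card (Fin n × Fin ζ) := Fintype.card_le_of_injective ι hι
  unfold avg
  have h1 : ∑ ω : Sample n ζ b, F (fun j => (ω (ι j).1 (ι j).2).2) =
      ∑ p : Fin n × Fin ζ → Bool × Fin b, (fun q : J → Bool × Fin b => F (fun j => (q j).2))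
        (p ∘ ι) :=
    Fintype.sum_equiv (Equiv.curry (Fin n) (Fin ζ) (Bool × Fin b)).symm _ _ (fun ω => rfl)
  have h2 : ∑ q : J → Bool × Fin b, F (fun j => (q j).2) =
      (2 : ℝ) ^ Fintype.card J * ∑ q : J → Fin b, F q := by
    have h3 : ∑ q : J → Bool × Fin b, F (fun j => (q j).2) =
        ∑ q : (J → Bool) × (J → Fin b), F q.2 :=
      Fintype.sum_equiv (Equiv.arrowProdEquivProdArrow J (fun _ => Bool) (fun _ => Fin b)) _ _
        (fun q => rfl)
    rw [h3, Fintype.sum_prod_type]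
    simp only [Finset.sum_const, Finset.card_univ, nsmul_eq_mul]
    rw [Fintype.card_fun]
    simp
  rw [h1, sum_marg ι hι (fun q : J → Bool × Fin b => F (fun j => (q j).2)), h2]
  have hc1 : Fintype.card (Sample n ζ b) = (2 * b) ^ (Fintype.card (Fin n × Fin ζ)) := by
    rw [Fintype.card_congr (Equiv.curry (Fin n) (Fin ζ) (Bool × Fin b)).symm, Fintype.card_fun,
      Fintype.card_prod Bool, Fintype.card_bool, Fintype.card_fin]
  have hc2 : Fintype.card (Bool × Fin b) = 2 * b := by
    rw [Fintype.card_prod, Fintype.card_bool, Fintype.card_fin]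
  rw [hc1, hc2, Fintype.card_fun, Fintype.card_fin]
  obtain ⟨k, hk⟩ := Nat.exists_eq_add_of_le hcard
  rw [hk, Nat.add_sub_cancel_left]
  have hb' : (b : ℝ) ≠ 0 := by exact_mod_cast hb.ne'
  push_cast
  rw [pow_add, mul_pow, mul_pow]
  field_simp

lemma avg_marg' {I J A : Type} [Fintype I] [Fintype J] [Fintype A] [Nonempty A] [DecidableEq I]
    [DecidableEq J] (ι : J → I) (hι : Function.Injective ι) (F : (J → A) → ℝ) :
    avg (fun p : I → A => F (p ∘ ι)) = avg F := by
  unfold avg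
  rw [sum_marg ι hι F, Fintype.card_fun, Fintype.card_fun]
  obtain ⟨k, hk⟩ := Nat.exists_eq_add_of_le (Fintype.card_le_of_injective ι hι)
  have hA : (Fintype.card A : ℝ) ≠ 0 := by exact_mod_cast Fintype.card_ne_zero
  rw [hk, Nat.add_sub_cancel_left]
  push_cast
  rw [pow_add]
  field_simp

/-- A sum over functions of a product of one-coordinate functions. -/
lemma sum_prod_fun {ι κ : Type} [Fintype ι] [DecidableEq ι] [Fintype κ] (f : ι → κ → ℝ) :
    ∑ g : ι → κ, ∏ i, f i (g i) = ∏ i, ∑ k, f i k := by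
  rw [Finset.prod_univ_sum, Fintype.piFinset_univ]

lemma avg_prod_fun {ι κ : Type} [Fintype ι] [DecidableEq ι] [Fintype κ] (f : ι → κ → ℝ) :
    avg (fun g : ι → κ => ∏ i, f i (g i)) = ∏ i, avg (f i) := by
  unfold avg
  rw [sum_prod_fun, Fintype.card_fun, Finset.prod_div_distrib, Finset.prod_const, Finset.card_univ]
  push_cast
  rfl

lemma avg_prod_type {S T : Type} [Fintype S] [Fintype T] (F : S × T → ℝ) :
    avg F = avg (fun s => avg (fun t => F (s, t))) := by
  unfold avg
  rw [Fintype.sum_prod_type, Fintype.card_prod, ← Finset.sum_div]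
  push_cast
  rw [div_div, mul_comm]

lemma avg_equiv {S T : Type} [Fintype S] [Fintype T] (e : S ≃ T) (F : T → ℝ) :
    avg (fun s => F (e s)) = avg F := by
  unfold avg
  rw [Fintype.card_congr e]
  congr 1
  exact Fintype.sum_equiv e _ _ (fun s => rfl)

lemma avg_mono {S : Type} [Fintype S] {f g : S → ℝ} (h : ∀ s, f s ≤ g s) : avg f ≤ avg g := by
  unfold avg
  exact div_le_div_of_nonneg_right (Finset.sum_le_sum (fun s _ => h s)) (by positivity)

lemma avg_sum {S T : Type} [Fintype S] (u : Finset T) (f : T → S → ℝ) :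
    avg (fun s => ∑ t ∈ u, f t s) = ∑ t ∈ u, avg (f t) := by
  unfold avg
  rw [Finset.sum_comm, Finset.sum_div]

lemma avg_mul_left {S : Type} [Fintype S] (c : ℝ) (f : S → ℝ) :
    avg (fun s => c * f s) = c * avg f := by
  unfold avg
  rw [← Finset.mul_sum, mul_div_assoc]

lemma avg_const {S : Type} [Fintype S] [Nonempty S] (c : ℝ) : avg (fun _ : S => c) = c := by
  unfold avg
  rw [Finset.sum_const, Finset.card_univ, nsmul_eq_mul, mul_comm, mul_div_assoc, div_self, mul_one]
  exact_mod_cast Fintype.card_ne_zero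

lemma avg_nonneg {S : Type} [Fintype S] {f : S → ℝ} (h : ∀ s, 0 ≤ f s) : 0 ≤ avg f := by
  unfold avg
  exact div_nonneg (Finset.sum_nonneg (fun s _ => h s)) (by positivity)

lemma avg_ind {b : ℕ} (u : Fin b) : avg (fun k : Fin b => if k = u then (1 : ℝ) else 0) = 1 / b := by
  unfold avg
  simp

end Avg

section Counts

/-- The number of balls at position `u`. -/
noncomputable def cnt {t b : ℕ} (g : Fin t → Fin b) (u : Fin b) : ℝ :=
  ∑ a, if g a = u then 1 else 0

lemma avg_one {t b : ℕ} (hb : 0 < b) (a : Fin t) (u : Fin b) :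
    avg (fun g : Fin t → Fin b => if g a = u then (1 : ℝ) else 0) = 1 / b := by
  haveI : Nonempty (Fin b) := ⟨⟨0, hb⟩⟩
  have h := avg_marg' (I := Fin t) (J := Unit) (A := Fin b) (fun _ => a)
    (fun x y _ => rfl) (fun q => if q () = u then (1 : ℝ) else 0)
  have h2 := avg_equiv (Equiv.funUnique Unit (Fin b))
    (fun k => if k = u then (1 : ℝ) else 0)
  rw [avg_ind] at h2
  rw [← h2]
  exact h

lemma avg_two {t b : ℕ} (hb : 0 < b) {a a' : Fin t} (haa : a ≠ a') (u u' : Fin b) :
    avg (fun g : Fin t → Fin b => (if g a = u then (1 : ℝ) else 0) * (if g a' = u' then 1 else 0))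
      = 1 / b * (1 / b) := by
  haveI : Nonempty (Fin b) := ⟨⟨0, hb⟩⟩
  have h := avg_marg' (I := Fin t) (J := Bool) (A := Fin b) (fun x => if x then a else a')
    (by
      intro x y hxy
      cases x <;> cases y <;> simp at hxy ⊢
      · exact haa hxy.symm
      · exact haa hxy)
    (fun q => (if q true = u then (1 : ℝ) else 0) * (if q false = u' then 1 else 0))
  have h2 : avg (fun q : Bool → Fin b => (if q true = u then (1 : ℝ) else 0) *
      (if q false = u' then 1 else 0)) = 1 / b * (1 / b) := by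
    have h3 := avg_prod_fun (ι := Bool) (κ := Fin b)
      (fun x k => if k = (if x then u else u') then (1 : ℝ) else 0)
    simp only [Fintype.prod_bool, if_true] at h3
    rw [avg_ind] at h3
    have h4 := avg_ind u'
    rw [← h4]
    simpa [h4] using h3
  rw [← h2]
  exact h

lemma avg_cnt {t b : ℕ} (hb : 0 < b) (u : Fin b) :
    avg (fun g : Fin t → Fin b => cnt g u) = t / b := by
  unfold cnt
  rw [avg_sum]
  simp only [avg_one hb]
  simp [div_eq_mul_inv]

lemma avg_cnt_cnt {t b : ℕ} (hb : 0 < b) (u u' : Fin b) :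
    avg (fun g : Fin t → Fin b => cnt g u * cnt g u') ≤
      ((t : ℝ) / b) ^ 2 + if u = u' then (t : ℝ) / b else 0 := by
  have h1 : (fun g : Fin t → Fin b => cnt g u * cnt g u') =
      fun g => ∑ a, ∑ a', ((if g a = u then (1 : ℝ) else 0) * (if g a' = u' then 1 else 0)) := by
    funext g
    unfold cnt
    rw [Finset.sum_mul_sum]
  rw [h1, avg_sum]
  have h2 : ∀ a : Fin t, avg (fun g : Fin t → Fin b =>
      ∑ a', ((if g a = u then (1 : ℝ) else 0) * (if g a' = u' then 1 else 0))) ≤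
      (t : ℝ) * (1 / b * (1 / b)) + if u = u' then (1 : ℝ) / b else 0 := by
    intro a
    rw [avg_sum, ← Finset.add_sum_erase _ _ (Finset.mem_univ a)]
    have h3 : avg (fun g : Fin t → Fin b =>
        (if g a = u then (1 : ℝ) else 0) * (if g a = u' then 1 else 0)) =
        if u = u' then (1 : ℝ) / b else 0 := by
      by_cases h : u = u'
      · subst h
        rw [if_pos rfl, ← avg_one hb a u]
        congr 1
        funext g
        split_ifs <;> simp
      · rw [if_neg h]
        have : (fun g : Fin t → Fin b =>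
          (if g a = u then (1 : ℝ) else 0) * (if g a = u' then 1 else 0)) = fun _ => 0 := by
          funext g
          by_cases h1 : g a = u
          · have h2 : g a ≠ u' := fun h3 => h (h1.symm.trans h3)
            simp [h2]
          · simp [h1]
        rw [this]
        simp [avg]
    rw [h3, add_comm]
    refine add_le_add ?_ le_rfl
    have h4 : ∀ a' ∈ Finset.univ.erase a, avg (fun g : Fin t → Fin b =>
        (if g a = u then (1 : ℝ) else 0) * (if g a' = u' then 1 else 0)) = 1 / b * (1 / b) :=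
      fun a' ha' => avg_two hb (Finset.ne_of_mem_erase ha').symm u u'
    rw [Finset.sum_congr rfl h4, Finset.sum_const, nsmul_eq_mul]
    refine mul_le_mul_of_nonneg_right ?_ (by positivity)
    have h5 : (Finset.univ.erase a).card ≤ t := by
      calc (Finset.univ.erase a).card ≤ (Finset.univ : Finset (Fin t)).card :=
            Finset.card_le_card (Finset.erase_subset _ _)
        _ = t := by simp
    exact_mod_cast h5
  calc _ ≤ ∑ _a : Fin t, ((t : ℝ) * (1 / b * (1 / b)) + if u = u' then (1 : ℝ) / b else 0) :=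
        Finset.sum_le_sum (fun a _ => h2 a)
    _ = _ := by
        rw [Finset.sum_const, Finset.card_univ, Fintype.card_fin, nsmul_eq_mul]
        have hb' : (b : ℝ) ≠ 0 := by exact_mod_cast hb.ne'
        split_ifs
        · field_simp
        · field_simp
          ring

end Counts

section Moments

variable {n ζ b m t : ℕ}

/-- Number of ways to complete the root column `c` by helper columns. -/
noncomputable def Yc (e : Option (Fin ζ × Fin m) × Fin t → Fin n) (c : Fin t)
    (ω : Sample n ζ b) : ℝ :=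
  ∏ jl : Fin ζ × Fin m, cnt (fun a => (ω (e (some jl, a)) jl.1).2) ((ω (e (none, c)) jl.1).2)

lemma avg_Yc (hb : 0 < b) {e : Option (Fin ζ × Fin m) × Fin t → Fin n}
    (he : Function.Injective e) (c : Fin t) :
    avg (Yc (b := b) e c) = ((t : ℝ) / b) ^ (ζ * m) := by
  haveI : Nonempty (Fin b) := ⟨⟨0, hb⟩⟩
  let ι : Fin ζ ⊕ ((Fin ζ × Fin m) × Fin t) → Fin n × Fin ζ := fun x =>
    Sum.elim (fun j => (e (none, c), j)) (fun q => (e (some q.1, q.2), q.1.1)) x
  have hι : Function.Injective ι := by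
    intro x y hxy
    rcases x with j | q <;> rcases y with j' | q' <;>
      simp only [ι, Sum.elim_inl, Sum.elim_inr, Prod.mk.injEq] at hxy
    · rw [hxy.2]
    · exact absurd (he hxy.1) (by simp)
    · exact absurd (he hxy.1) (by simp)
    · have := he hxy.1
      simp only [Prod.mk.injEq, Option.some.injEq] at this
      rw [Prod.ext this.1 this.2]
  have h1 := avg_marg (n := n) (ζ := ζ) hb ι hι
    (fun q => ∏ jl : Fin ζ × Fin m, cnt (fun a => q (Sum.inr (jl, a))) (q (Sum.inl jl.1)))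
  have h2 : avg (fun q : Fin ζ ⊕ ((Fin ζ × Fin m) × Fin t) → Fin b =>
      ∏ jl : Fin ζ × Fin m, cnt (fun a => q (Sum.inr (jl, a))) (q (Sum.inl jl.1))) =
      ((t : ℝ) / b) ^ (ζ * m) := by
    have h3 := avg_equiv ((Equiv.sumArrowEquivProdArrow (Fin ζ) ((Fin ζ × Fin m) × Fin t)
      (Fin b)).trans (Equiv.prodCongr (Equiv.refl _) (Equiv.curry (Fin ζ × Fin m) (Fin t) (Fin b))))
      (fun p => ∏ jl : Fin ζ × Fin m, cnt (p.2 jl) (p.1 jl.1))
    refine Eq.trans h3 ?_
    rw [avg_prod_type]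
    have h4 : ∀ u : Fin ζ → Fin b, avg (fun g : Fin ζ × Fin m → Fin t → Fin b =>
        ∏ jl : Fin ζ × Fin m, cnt (g jl) (u jl.1)) = ((t : ℝ) / b) ^ (ζ * m) := by
      intro u
      rw [avg_prod_fun (fun (jl : Fin ζ × Fin m) (g : Fin t → Fin b) => cnt g (u jl.1))]
      simp only [avg_cnt hb]
      rw [Finset.prod_const, Finset.card_univ, Fintype.card_prod, Fintype.card_fin,
        Fintype.card_fin]
    simp only [h4]
    rw [avg_const]
  rw [← h2, ← h1]
  rfl

lemma avg_Yc_sq (hb : 0 < b) {e : Option (Fin ζ × Fin m) × Fin t → Fin n}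
    (he : Function.Injective e) (c : Fin t) :
    avg (fun ω : Sample n ζ b => Yc e c ω * Yc e c ω) ≤
      (((t : ℝ) / b) ^ 2 + (t : ℝ) / b) ^ (ζ * m) := by
  haveI : Nonempty (Fin b) := ⟨⟨0, hb⟩⟩
  let ι : Fin ζ ⊕ ((Fin ζ × Fin m) × Fin t) → Fin n × Fin ζ := fun x =>
    Sum.elim (fun j => (e (none, c), j)) (fun q => (e (some q.1, q.2), q.1.1)) x
  have hι : Function.Injective ι := by
    intro x y hxy
    rcases x with j | q <;> rcases y with j' | q' <;>
      simp only [ι, Sum.elim_inl, Sum.elim_inr, Prod.mk.injEq] at hxy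
    · rw [hxy.2]
    · exact absurd (he hxy.1) (by simp)
    · exact absurd (he hxy.1) (by simp)
    · have := he hxy.1
      simp only [Prod.mk.injEq, Option.some.injEq] at this
      rw [Prod.ext this.1 this.2]
  have h1 := avg_marg (n := n) (ζ := ζ) hb ι hι
    (fun q => (∏ jl : Fin ζ × Fin m, cnt (fun a => q (Sum.inr (jl, a))) (q (Sum.inl jl.1))) *
      ∏ jl : Fin ζ × Fin m, cnt (fun a => q (Sum.inr (jl, a))) (q (Sum.inl jl.1)))
  have h2 : avg (fun q : Fin ζ ⊕ ((Fin ζ × Fin m) × Fin t) → Fin b =>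
      (∏ jl : Fin ζ × Fin m, cnt (fun a => q (Sum.inr (jl, a))) (q (Sum.inl jl.1))) *
      ∏ jl : Fin ζ × Fin m, cnt (fun a => q (Sum.inr (jl, a))) (q (Sum.inl jl.1))) ≤
      (((t : ℝ) / b) ^ 2 + (t : ℝ) / b) ^ (ζ * m) := by
    have h3 := avg_equiv ((Equiv.sumArrowEquivProdArrow (Fin ζ) ((Fin ζ × Fin m) × Fin t)
      (Fin b)).trans (Equiv.prodCongr (Equiv.refl _) (Equiv.curry (Fin ζ × Fin m) (Fin t) (Fin b))))
      (fun p => (∏ jl : Fin ζ × Fin m, cnt (p.2 jl) (p.1 jl.1)) *
        ∏ jl : Fin ζ × Fin m, cnt (p.2 jl) (p.1 jl.1))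
    refine le_trans (le_of_eq h3) ?_
    rw [avg_prod_type]
    have h4 : ∀ u : Fin ζ → Fin b, avg (fun g : Fin ζ × Fin m → Fin t → Fin b =>
        (∏ jl : Fin ζ × Fin m, cnt (g jl) (u jl.1)) * ∏ jl : Fin ζ × Fin m, cnt (g jl) (u jl.1))
        ≤ (((t : ℝ) / b) ^ 2 + (t : ℝ) / b) ^ (ζ * m) := by
      intro u
      simp only [← Finset.prod_mul_distrib]
      rw [avg_prod_fun (fun (jl : Fin ζ × Fin m) (g : Fin t → Fin b) =>
        cnt g (u jl.1) * cnt g (u jl.1))]
      have h5 : (((t : ℝ) / b) ^ 2 + (t : ℝ) / b) ^ (ζ * m) =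
          ∏ _jl : Fin ζ × Fin m, (((t : ℝ) / b) ^ 2 + (t : ℝ) / b) := by
        rw [Finset.prod_const, Finset.card_univ, Fintype.card_prod, Fintype.card_fin,
          Fintype.card_fin]
      rw [h5]
      refine Finset.prod_le_prod (fun jl _ => avg_nonneg (fun g => mul_self_nonneg _))
        (fun jl _ => ?_)
      have := avg_cnt_cnt (t := t) hb (u jl.1) (u jl.1)
      rwa [if_pos rfl] at this
    calc _ ≤ avg (fun _ : Fin ζ → Fin b => (((t : ℝ) / b) ^ 2 + (t : ℝ) / b) ^ (ζ * m)) :=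
          avg_mono h4
      _ = _ := avg_const _
  rw [← h1] at h2
  exact h2

lemma cnt_nonneg {t b : ℕ} (g : Fin t → Fin b) (u : Fin b) : 0 ≤ cnt g u :=
  Finset.sum_nonneg (fun a _ => by split_ifs <;> norm_num)

lemma avg_Yc_Yc (hb : 0 < b) {e : Option (Fin ζ × Fin m) × Fin t → Fin n}
    (he : Function.Injective e) {c c' : Fin t} (hcc : c ≠ c') :
    avg (fun ω : Sample n ζ b => Yc e c ω * Yc e c' ω) ≤
      ((((t : ℝ) / b) ^ 2) ^ m + (((t : ℝ) / b) ^ 2 + (t : ℝ) / b) ^ m / b) ^ ζ := by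
  haveI : Nonempty (Fin b) := ⟨⟨0, hb⟩⟩
  let ι : (Fin ζ ⊕ Fin ζ) ⊕ ((Fin ζ × Fin m) × Fin t) → Fin n × Fin ζ := fun x =>
    Sum.elim (fun y => Sum.elim (fun j => (e (none, c), j)) (fun j => (e (none, c'), j)) y)
      (fun q => (e (some q.1, q.2), q.1.1)) x
  have hι : Function.Injective ι := by
    intro x y hxy
    rcases x with (j | j) | q <;> rcases y with (j' | j') | q' <;>
      simp only [ι, Sum.elim_inl, Sum.elim_inr, Prod.mk.injEq] at hxy
    · rw [hxy.2]
    · have := he hxy.1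
      simp only [Prod.mk.injEq, true_and] at this
      exact absurd this hcc
    · exact absurd (he hxy.1) (by simp)
    · have := he hxy.1
      simp only [Prod.mk.injEq, true_and] at this
      exact absurd this hcc.symm
    · rw [hxy.2]
    · exact absurd (he hxy.1) (by simp)
    · exact absurd (he hxy.1) (by simp)
    · exact absurd (he hxy.1) (by simp)
    · have := he hxy.1
      simp only [Prod.mk.injEq, Option.some.injEq] at this
      rw [Prod.ext this.1 this.2]
  have h1 := avg_marg (n := n) (ζ := ζ) hb ι hι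
    (fun q => (∏ jl : Fin ζ × Fin m, cnt (fun a => q (Sum.inr (jl, a)))
      (q (Sum.inl (Sum.inl jl.1)))) *
      ∏ jl : Fin ζ × Fin m, cnt (fun a => q (Sum.inr (jl, a))) (q (Sum.inl (Sum.inr jl.1))))
  have h2 : avg (fun q : (Fin ζ ⊕ Fin ζ) ⊕ ((Fin ζ × Fin m) × Fin t) → Fin b =>
      (∏ jl : Fin ζ × Fin m, cnt (fun a => q (Sum.inr (jl, a)))
      (q (Sum.inl (Sum.inl jl.1)))) *
      ∏ jl : Fin ζ × Fin m, cnt (fun a => q (Sum.inr (jl, a))) (q (Sum.inl (Sum.inr jl.1)))) ≤
      ((((t : ℝ) / b) ^ 2) ^ m + (((t : ℝ) / b) ^ 2 + (t : ℝ) / b) ^ m / b) ^ ζ := by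
    have h3 := avg_equiv ((Equiv.sumArrowEquivProdArrow (Fin ζ ⊕ Fin ζ)
      ((Fin ζ × Fin m) × Fin t) (Fin b)).trans (Equiv.prodCongr
        ((Equiv.sumArrowEquivProdArrow (Fin ζ) (Fin ζ) (Fin b)).trans
          (Equiv.arrowProdEquivProdArrow (Fin ζ) (fun _ => Fin b) (fun _ => Fin b)).symm)
        (Equiv.curry (Fin ζ × Fin m) (Fin t) (Fin b))))
      (fun p => (∏ jl : Fin ζ × Fin m, cnt (p.2 jl) (p.1 jl.1).1) *
        ∏ jl : Fin ζ × Fin m, cnt (p.2 jl) (p.1 jl.1).2)
    refine le_trans (le_of_eq h3) ?_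
    rw [avg_prod_type]
    have h4 : ∀ u : Fin ζ → Fin b × Fin b, avg (fun g : Fin ζ × Fin m → Fin t → Fin b =>
        (∏ jl : Fin ζ × Fin m, cnt (g jl) (u jl.1).1) *
          ∏ jl : Fin ζ × Fin m, cnt (g jl) (u jl.1).2)
        ≤ ∏ j : Fin ζ, ((((t : ℝ) / b) ^ 2) ^ m +
          if (u j).1 = (u j).2 then (((t : ℝ) / b) ^ 2 + (t : ℝ) / b) ^ m else 0) := by
      intro u
      simp only [← Finset.prod_mul_distrib]
      rw [avg_prod_fun (fun (jl : Fin ζ × Fin m) (g : Fin t → Fin b) =>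
        cnt g (u jl.1).1 * cnt g (u jl.1).2), Fintype.prod_prod_type]
      refine Finset.prod_le_prod (fun j _ => Finset.prod_nonneg (fun l _ =>
        avg_nonneg (fun g => mul_nonneg (cnt_nonneg _ _) (cnt_nonneg _ _)))) (fun j _ => ?_)
      have h6 : ∏ _l : Fin m, avg (fun g : Fin t → Fin b => cnt g (u j).1 * cnt g (u j).2) ≤
          (((t : ℝ) / b) ^ 2 + if (u j).1 = (u j).2 then (t : ℝ) / b else 0) ^ m := by
        rw [Finset.prod_const, Finset.card_univ, Fintype.card_fin]
        exact pow_le_pow_left₀ (avg_nonneg (fun g => mul_nonneg (cnt_nonneg _ _) (cnt_nonneg _ _)))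
          (avg_cnt_cnt hb _ _) _
      refine h6.trans ?_
      by_cases h : (u j).1 = (u j).2
      · rw [if_pos h, if_pos h]
        have : (0 : ℝ) ≤ (((t : ℝ) / b) ^ 2) ^ m := by positivity
        linarith
      · rw [if_neg h, if_neg h, add_zero, add_zero]
    refine (avg_mono h4).trans ?_
    rw [avg_prod_fun (fun (_ : Fin ζ) (w : Fin b × Fin b) => ((((t : ℝ) / b) ^ 2) ^ m +
          if w.1 = w.2 then (((t : ℝ) / b) ^ 2 + (t : ℝ) / b) ^ m else 0)), Finset.prod_const,
          Finset.card_univ, Fintype.card_fin]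
    apply le_of_eq
    congr 1
    rw [avg_prod_type]
    have h7 : ∀ a : Fin b, avg (fun a' : Fin b => ((((t : ℝ) / b) ^ 2) ^ m +
          if a = a' then (((t : ℝ) / b) ^ 2 + (t : ℝ) / b) ^ m else 0)) =
        (((t : ℝ) / b) ^ 2) ^ m + (((t : ℝ) / b) ^ 2 + (t : ℝ) / b) ^ m / b := by
      intro a
      unfold avg
      rw [Finset.sum_add_distrib]
      simp only [Finset.sum_const, Finset.card_univ, Fintype.card_fin, nsmul_eq_mul,
        Finset.sum_ite_eq, Finset.mem_univ, if_true]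
      have hb' : (b : ℝ) ≠ 0 := by exact_mod_cast hb.ne'
      field_simp
    simp only [h7]
    rw [avg_const]
  rw [← h1] at h2
  exact h2

end Moments

section Residual

variable {n ζ b m t : ℕ}

/-- Flip the sign at one coordinate. -/
def flip (i : Fin n) (j : Fin ζ) (ω : Sample n ζ b) : Sample n ζ b :=
  fun i' j' => if i' = i ∧ j' = j then (!(ω i' j').1, (ω i' j').2) else ω i' j'

lemma flip_flip (i : Fin n) (j : Fin ζ) (ω : Sample n ζ b) : flip i j (flip i j ω) = ω := by
  funext i' j'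
  unfold flip
  by_cases h : i' = i ∧ j' = j
  · simp [h]
  · simp [h]

lemma flip_snd (i : Fin n) (j : Fin ζ) (ω : Sample n ζ b) (i' : Fin n) (j' : Fin ζ) :
    (flip i j ω i' j').2 = (ω i' j').2 := by
  unfold flip
  split_ifs <;> rfl

lemma flip_of_ne_left {i i' : Fin n} (h : i' ≠ i) (j j' : Fin ζ) (ω : Sample n ζ b) :
    flip i j ω i' j' = ω i' j' := by
  unfold flip
  simp [h]

lemma flip_of_ne_right {j j' : Fin ζ} (h : j' ≠ j) (i i' : Fin n) (ω : Sample n ζ b) :
    flip i j ω i' j' = ω i' j' := by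
  unfold flip
  simp [h]

lemma sgn_not (s : Bool) : sgn (!s) = - sgn s := by
  cases s <;> simp [sgn]

lemma sgn_mul_self (s : Bool) : sgn s * sgn s = 1 := by
  cases s <;> simp [sgn]

lemma sum_flip_zero (i : Fin n) (j : Fin ζ) (f : Sample n ζ b → ℝ)
    (hf : ∀ ω, f (flip i j ω) = - f ω) : ∑ ω, f ω = 0 := by
  have h1 : ∑ ω, f ω = ∑ ω, f (flip i j ω) := by
    let E : Sample n ζ b ≃ Sample n ζ b :=
      ⟨flip i j, flip i j, flip_flip i j, flip_flip i j⟩
    exact (Fintype.sum_equiv E (fun ω => f (flip i j ω)) f (fun ω => rfl)).symm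
  have h2 : ∑ ω, f (flip i j ω) = - ∑ ω, f ω := by
    rw [← Finset.sum_neg_distrib]
    exact Finset.sum_congr rfl (fun ω _ => hf ω)
  linarith

/-- Indicator that the helper columns `h` sit in the rows of the root column `c`. -/
noncomputable def indG (e : Option (Fin ζ × Fin m) × Fin t → Fin n) (c : Fin t)
    (h : Fin ζ × Fin m → Fin t) (ω : Sample n ζ b) : ℝ :=
  ∏ jl : Fin ζ × Fin m,
    if (ω (e (some jl, h jl)) jl.1).2 = (ω (e (none, c)) jl.1).2 then (1 : ℝ) else 0

/-- The relative sign of a helper column and the root column. -/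
noncomputable def sig (e : Option (Fin ζ × Fin m) × Fin t → Fin n) (c : Fin t)
    (h : Fin ζ × Fin m → Fin t) (ω : Sample n ζ b) (jl : Fin ζ × Fin m) : ℝ :=
  sgn (ω (e (none, c)) jl.1).1 * sgn (ω (e (some jl, h jl)) jl.1).1

/-- The almost null vector. -/
noncomputable def xv (e : Option (Fin ζ × Fin m) × Fin t → Fin n) (c : Fin t)
    (h : Fin ζ × Fin m → Fin t) (ω : Sample n ζ b) : Fin n → ℝ :=
  Pi.single (e (none, c)) (1 : ℝ) -
    (1 / (m : ℝ)) • ∑ jl : Fin ζ × Fin m, sig e c h ω jl • Pi.single (e (some jl, h jl)) (1 : ℝ)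

lemma one_le_normSq_xv {e : Option (Fin ζ × Fin m) × Fin t → Fin n}
    (he : Function.Injective e) (c : Fin t) (h : Fin ζ × Fin m → Fin t) (ω : Sample n ζ b) :
    1 ≤ normSq (xv e c h ω) := by
  have h1 : xv e c h ω (e (none, c)) = 1 := by
    unfold xv
    simp only [Pi.sub_apply, Pi.smul_apply, Finset.sum_apply, Pi.single_eq_same, smul_eq_mul]
    have : ∑ jl : Fin ζ × Fin m, sig e c h ω jl *
        (Pi.single (e (some jl, h jl)) (1 : ℝ) : Fin n → ℝ) (e (none, c)) = 0 := by
      refine Finset.sum_eq_zero (fun jl _ => ?_)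
      rw [Pi.single_eq_of_ne (fun h => absurd (he h) (by simp)), mul_zero]
    rw [this]
    ring
  unfold normSq
  calc (1 : ℝ) = xv e c h ω (e (none, c)) ^ 2 := by rw [h1]; ring
    _ ≤ _ := Finset.single_le_sum (f := fun i => xv e c h ω i ^ 2)
        (fun i _ => sq_nonneg _) (Finset.mem_univ _)

lemma mulVec_xv (e : Option (Fin ζ × Fin m) × Fin t → Fin n) (c : Fin t)
    (h : Fin ζ × Fin m → Fin t) (ω : Sample n ζ b) (p : Fin ζ × Fin b) :
    (sparseStack ω).transpose.mulVec (xv e c h ω) p =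
      sparseStack ω (e (none, c)) p -
        (1 / (m : ℝ)) * ∑ jl : Fin ζ × Fin m, sig e c h ω jl *
          sparseStack ω (e (some jl, h jl)) p := by
  unfold xv
  rw [Matrix.mulVec_sub, Matrix.mulVec_smul, Matrix.mulVec_sum]
  simp only [Matrix.mulVec_smul, Matrix.mulVec_single_one, Pi.sub_apply, Pi.smul_apply,
    Finset.sum_apply, smul_eq_mul, Matrix.col_transpose]
  rfl

lemma sum_ite_fst (j : Fin ζ) (v : ℝ) :
    ∑ jl : Fin ζ × Fin m, (if jl.1 = j then v else 0) = m * v := by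
  rw [Fintype.sum_prod_type]
  have h : ∀ x : Fin ζ, ∑ y : Fin m, (if ((x, y) : Fin ζ × Fin m).1 = j then v else 0) =
      if x = j then m * v else 0 := by
    intro x
    by_cases hx : x = j
    · simp [hx]
    · simp [hx]
  rw [Finset.sum_congr rfl (fun x _ => h x)]
  simp

/-- The rows of the root column are cancelled. -/
lemma mulVec_xv_of_indG (hm : 0 < m) {e : Option (Fin ζ × Fin m) × Fin t → Fin n} (c : Fin t)
    (h : Fin ζ × Fin m → Fin t) (ω : Sample n ζ b)
    (hG : ∀ jl : Fin ζ × Fin m,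
      (ω (e (some jl, h jl)) jl.1).2 = (ω (e (none, c)) jl.1).2) (p : Fin ζ × Fin b) :
    (sparseStack ω).transpose.mulVec (xv e c h ω) p =
      - ((1 / (m : ℝ)) * ∑ jl : Fin ζ × Fin m, (if jl.1 = p.1 then 0 else 1) *
        (sig e c h ω jl * sparseStack ω (e (some jl, h jl)) p)) := by
  rw [mulVec_xv]
  have h1 : ∀ jl : Fin ζ × Fin m, sig e c h ω jl * sparseStack ω (e (some jl, h jl)) p =
      (if jl.1 = p.1 then sparseStack ω (e (none, c)) p else 0) +
      (if jl.1 = p.1 then 0 else 1) *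
        (sig e c h ω jl * sparseStack ω (e (some jl, h jl)) p) := by
    intro jl
    by_cases hj : jl.1 = p.1
    · rw [if_pos hj, if_pos hj, zero_mul, add_zero]
      unfold sig sparseStack
      rw [← hj, hG jl]
      by_cases hs : (ω (e (none, c)) jl.1).2 = p.2
      · rw [if_pos hs, if_pos hs]
        have h2 := sgn_mul_self (ω (e (some jl, h jl)) jl.1).1
        linear_combination ((Real.sqrt ζ)⁻¹ * sgn (ω (e (none, c)) jl.1).1) * h2
      · rw [if_neg hs, if_neg hs, mul_zero]
    · rw [if_neg hj, if_neg hj, zero_add, one_mul]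
  rw [Finset.sum_congr rfl (fun jl _ => h1 jl), Finset.sum_add_distrib]
  have h2 : ∑ jl : Fin ζ × Fin m, (if jl.1 = p.1 then sparseStack ω (e (none, c)) p else 0) =
      m * sparseStack ω (e (none, c)) p := sum_ite_fst p.1 _
  rw [h2]
  have hm' : (m : ℝ) ≠ 0 := by exact_mod_cast hm.ne'
  field_simp
  ring

/-- The off-diagonal terms average out. -/
lemma sum_off {e : Option (Fin ζ × Fin m) × Fin t → Fin n}
    (he : Function.Injective e) (c : Fin t) (h : Fin ζ × Fin m → Fin t)
    {A B : Fin ζ × Fin m} (hAB : A ≠ B) (p : Fin ζ × Fin b) (hA : A.1 ≠ p.1) :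
    ∑ ω : Sample n ζ b, indG e c h ω * ((sig e c h ω A * sparseStack ω (e (some A, h A)) p) *
      (sig e c h ω B * sparseStack ω (e (some B, h B)) p)) = 0 := by
  refine sum_flip_zero (e (some A, h A)) p.1 _ (fun ω => ?_)
  have h1 : indG e c h (flip (e (some A, h A)) p.1 ω) = indG e c h ω := by
    unfold indG
    simp only [flip_snd]
  have hcA : e (none, c) ≠ e (some A, h A) := fun h' => absurd (he h') (by simp)
  have hBA : e (some B, h B) ≠ e (some A, h A) := fun h' => by
    have := he h'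
    simp only [Prod.mk.injEq, Option.some.injEq] at this
    exact hAB this.1.symm
  have h2 : sig e c h (flip (e (some A, h A)) p.1 ω) A = sig e c h ω A := by
    unfold sig
    rw [flip_of_ne_left hcA, flip_of_ne_right hA]
  have h3 : sig e c h (flip (e (some A, h A)) p.1 ω) B = sig e c h ω B := by
    unfold sig
    rw [flip_of_ne_left hcA, flip_of_ne_left hBA]
  have h4 : sparseStack (flip (e (some A, h A)) p.1 ω) (e (some B, h B)) p =
      sparseStack ω (e (some B, h B)) p := by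
    unfold sparseStack
    rw [flip_of_ne_left hBA]
  have h5 : sparseStack (flip (e (some A, h A)) p.1 ω) (e (some A, h A)) p =
      - sparseStack ω (e (some A, h A)) p := by
    unfold sparseStack
    rw [flip_snd]
    split_ifs
    · have : (flip (e (some A, h A)) p.1 ω (e (some A, h A)) p.1).1 =
          !(ω (e (some A, h A)) p.1).1 := by
        unfold flip
        simp
      rw [this, sgn_not]
      ring
    · ring
  rw [h1, h2, h3, h4, h5]
  ring

lemma sparseStack_sq_sum (hζ : 0 < ζ) (ω : Sample n ζ b) (i : Fin n) (j : Fin ζ) :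
    ∑ s : Fin b, sparseStack ω i (j, s) * sparseStack ω i (j, s) = 1 / ζ := by
  have h1 : ∀ s : Fin b, sparseStack ω i (j, s) * sparseStack ω i (j, s) =
      if (ω i j).2 = s then 1 / (ζ : ℝ) else 0 := by
    intro s
    unfold sparseStack
    by_cases hs : (ω i j).2 = s
    · simp only [hs, if_true]
      have h2 := sgn_mul_self (ω i j).1
      have h3 : (Real.sqrt ζ)⁻¹ * (Real.sqrt ζ)⁻¹ = 1 / (ζ : ℝ) := by
        rw [← mul_inv, Real.mul_self_sqrt (by positivity), one_div]
      calc (Real.sqrt ζ)⁻¹ * sgn (ω i j).1 * ((Real.sqrt ζ)⁻¹ * sgn (ω i j).1)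
          = ((Real.sqrt ζ)⁻¹ * (Real.sqrt ζ)⁻¹) * (sgn (ω i j).1 * sgn (ω i j).1) := by ring
        _ = _ := by rw [h2, h3, mul_one]
    · simp [hs]
  rw [Finset.sum_congr rfl (fun s _ => h1 s)]
  simp

/-- The average residual. -/
lemma sum_residual (hζ : 0 < ζ) (hm : 0 < m) {e : Option (Fin ζ × Fin m) × Fin t → Fin n}
    (he : Function.Injective e) (c : Fin t) (h : Fin ζ × Fin m → Fin t) :
    ∑ ω : Sample n ζ b, indG e c h ω *
      normSq ((sparseStack ω).transpose.mulVec (xv e c h ω)) =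
    (((ζ : ℝ) - 1) / m) * ∑ ω : Sample n ζ b, indG e c h ω := by
  have h1 : ∀ ω : Sample n ζ b, indG e c h ω *
      normSq ((sparseStack ω).transpose.mulVec (xv e c h ω)) =
      ∑ p : Fin ζ × Fin b, ∑ A : Fin ζ × Fin m, ∑ B : Fin ζ × Fin m,
        ((1 / (m : ℝ)) ^ 2 * ((if A.1 = p.1 then 0 else 1) * (if B.1 = p.1 then 0 else 1))) *
        (indG e c h ω * ((sig e c h ω A * sparseStack ω (e (some A, h A)) p) *
          (sig e c h ω B * sparseStack ω (e (some B, h B)) p))) := by
    intro ω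
    by_cases hG : ∀ jl : Fin ζ × Fin m,
        (ω (e (some jl, h jl)) jl.1).2 = (ω (e (none, c)) jl.1).2
    · unfold normSq
      rw [Finset.mul_sum]
      refine Finset.sum_congr rfl (fun p _ => ?_)
      rw [mulVec_xv_of_indG hm c h ω hG p, neg_sq, mul_pow, sq (∑ jl : Fin ζ × Fin m, _),
        Finset.sum_mul_sum, Finset.mul_sum, Finset.mul_sum]
      refine Finset.sum_congr rfl (fun A _ => ?_)
      rw [Finset.mul_sum, Finset.mul_sum]
      refine Finset.sum_congr rfl (fun B _ => ?_)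
      ring
    · have h0 : indG e c h ω = 0 := by
        unfold indG
        push Not at hG
        obtain ⟨jl, hjl⟩ := hG
        exact Finset.prod_eq_zero (Finset.mem_univ jl) (if_neg hjl)
      rw [h0]
      simp
  rw [Finset.sum_congr rfl (fun ω _ => h1 ω), Finset.sum_comm]
  have h2 : ∀ p : Fin ζ × Fin b, ∑ ω : Sample n ζ b, ∑ A : Fin ζ × Fin m, ∑ B : Fin ζ × Fin m,
        ((1 / (m : ℝ)) ^ 2 * ((if A.1 = p.1 then 0 else 1) * (if B.1 = p.1 then 0 else 1))) *
        (indG e c h ω * ((sig e c h ω A * sparseStack ω (e (some A, h A)) p) *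
          (sig e c h ω B * sparseStack ω (e (some B, h B)) p))) =
      ∑ A : Fin ζ × Fin m, (1 / (m : ℝ)) ^ 2 * (if A.1 = p.1 then 0 else 1) *
        ∑ ω : Sample n ζ b, indG e c h ω * (sparseStack ω (e (some A, h A)) p *
          sparseStack ω (e (some A, h A)) p) := by
    intro p
    rw [Finset.sum_comm]
    refine Finset.sum_congr rfl (fun A _ => ?_)
    rw [Finset.sum_comm, ← Finset.add_sum_erase _ _ (Finset.mem_univ A)]
    have h3 : ∑ B ∈ Finset.univ.erase A, ∑ ω : Sample n ζ b,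
        ((1 / (m : ℝ)) ^ 2 * ((if A.1 = p.1 then 0 else 1) * (if B.1 = p.1 then 0 else 1))) *
        (indG e c h ω * ((sig e c h ω A * sparseStack ω (e (some A, h A)) p) *
          (sig e c h ω B * sparseStack ω (e (some B, h B)) p))) = 0 := by
      refine Finset.sum_eq_zero (fun B hB => ?_)
      rw [← Finset.mul_sum]
      by_cases hA : A.1 = p.1
      · simp [hA]
      · rw [sum_off he c h (Finset.ne_of_mem_erase hB).symm p hA, mul_zero]
    rw [h3, add_zero, ← Finset.mul_sum]
    by_cases hA : A.1 = p.1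
    · simp [hA]
    · simp only [hA, if_false, mul_one]
      congr 1
      refine Finset.sum_congr rfl (fun ω _ => ?_)
      have h4 : sig e c h ω A * sig e c h ω A = 1 := by
        unfold sig
        have a1 := sgn_mul_self (ω (e (none, c)) A.1).1
        have a2 := sgn_mul_self (ω (e (some A, h A)) A.1).1
        calc _ = (sgn (ω (e (none, c)) A.1).1 * sgn (ω (e (none, c)) A.1).1) *
              (sgn (ω (e (some A, h A)) A.1).1 * sgn (ω (e (some A, h A)) A.1).1) := by ring
          _ = 1 := by rw [a1, a2, one_mul]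
      linear_combination (indG e c h ω * sparseStack ω (e (some A, h A)) p *
        sparseStack ω (e (some A, h A)) p) * h4
  rw [Finset.sum_congr rfl (fun p _ => h2 p), Finset.sum_comm]
  have h5 : ∀ A : Fin ζ × Fin m, ∑ p : Fin ζ × Fin b,
      (1 / (m : ℝ)) ^ 2 * (if A.1 = p.1 then 0 else 1) *
        ∑ ω : Sample n ζ b, indG e c h ω * (sparseStack ω (e (some A, h A)) p *
          sparseStack ω (e (some A, h A)) p) =
      (1 / (m : ℝ)) ^ 2 * (((ζ : ℝ) - 1) / ζ) * ∑ ω : Sample n ζ b, indG e c h ω := by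
    intro A
    rw [Fintype.sum_prod_type]
    have h6 : ∀ j : Fin ζ, ∑ s : Fin b, (1 / (m : ℝ)) ^ 2 * (if A.1 = ((j, s) : Fin ζ × Fin b).1
        then 0 else 1) * ∑ ω : Sample n ζ b, indG e c h ω *
          (sparseStack ω (e (some A, h A)) (j, s) * sparseStack ω (e (some A, h A)) (j, s)) =
        (1 / (m : ℝ)) ^ 2 * (if A.1 = j then 0 else 1) * (1 / ζ) *
          ∑ ω : Sample n ζ b, indG e c h ω := by
      intro j
      have h8 : ∑ s : Fin b, ∑ ω : Sample n ζ b, indG e c h ω *
          (sparseStack ω (e (some A, h A)) (j, s) * sparseStack ω (e (some A, h A)) (j, s)) =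
          (1 / (ζ : ℝ)) * ∑ ω : Sample n ζ b, indG e c h ω := by
        rw [Finset.sum_comm, Finset.mul_sum]
        refine Finset.sum_congr rfl (fun ω _ => ?_)
        calc _ = indG e c h ω * ∑ s : Fin b, (sparseStack ω (e (some A, h A)) (j, s) *
              sparseStack ω (e (some A, h A)) (j, s)) := (Finset.mul_sum _ _ _).symm
          _ = _ := by rw [sparseStack_sq_sum hζ, mul_comm]
      calc _ = (1 / (m : ℝ)) ^ 2 * (if A.1 = j then 0 else 1) *
            ∑ s : Fin b, ∑ ω : Sample n ζ b, indG e c h ω *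
          (sparseStack ω (e (some A, h A)) (j, s) * sparseStack ω (e (some A, h A)) (j, s)) :=
            (Finset.mul_sum _ _ _).symm
        _ = _ := by rw [h8]; ring
    rw [Finset.sum_congr rfl (fun j _ => h6 j), ← Finset.sum_mul, ← Finset.sum_mul,
      ← Finset.mul_sum]
    have h7 : ∑ j : Fin ζ, (if A.1 = j then (0 : ℝ) else 1) = (ζ : ℝ) - 1 := by
      have : ∀ j : Fin ζ, (if A.1 = j then (0 : ℝ) else 1) = 1 - if A.1 = j then 1 else 0 := by
        intro j
        split_ifs <;> ring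
      rw [Finset.sum_congr rfl (fun j _ => this j), Finset.sum_sub_distrib]
      simp
    rw [h7]
    ring
  rw [Finset.sum_congr rfl (fun A _ => h5 A), Finset.sum_const, Finset.card_univ,
    Fintype.card_prod, Fintype.card_fin, Fintype.card_fin, nsmul_eq_mul]
  have hm' : (m : ℝ) ≠ 0 := by exact_mod_cast hm.ne'
  have hζ' : (ζ : ℝ) ≠ 0 := by exact_mod_cast hζ.ne'
  push_cast
  field_simp

lemma sum_indG (e : Option (Fin ζ × Fin m) × Fin t → Fin n) (c : Fin t) (ω : Sample n ζ b) :
    ∑ h : Fin ζ × Fin m → Fin t, indG e c h ω = Yc e c ω := by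
  unfold indG Yc
  rw [sum_prod_fun (fun (jl : Fin ζ × Fin m) (a : Fin t) =>
    if (ω (e (some jl, a)) jl.1).2 = (ω (e (none, c)) jl.1).2 then (1 : ℝ) else 0)]
  rfl

end Residual

section Prob

variable {n ζ b m t : ℕ}

lemma normSq_nonneg {ι : Type} [Fintype ι] (x : ι → ℝ) : 0 ≤ normSq x :=
  Finset.sum_nonneg (fun _ _ => sq_nonneg _)

lemma indG_nonneg (e : Option (Fin ζ × Fin m) × Fin t → Fin n) (c : Fin t)
    (h : Fin ζ × Fin m → Fin t) (ω : Sample n ζ b) : 0 ≤ indG e c h ω :=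
  Finset.prod_nonneg (fun jl _ => by split_ifs <;> norm_num)

/-- Number of structures found. -/
noncomputable def XX (e : Option (Fin ζ × Fin m) × Fin t → Fin n) (ω : Sample n ζ b) : ℝ :=
  ∑ c, Yc e c ω

/-- Total residual of the structures found. -/
noncomputable def RR (e : Option (Fin ζ × Fin m) × Fin t → Fin n) (ω : Sample n ζ b) : ℝ :=
  ∑ c, ∑ h : Fin ζ × Fin m → Fin t, indG e c h ω *
    normSq ((sparseStack ω).transpose.mulVec (xv e c h ω))

lemma avg_XX (hb : 0 < b) {e : Option (Fin ζ × Fin m) × Fin t → Fin n}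
    (he : Function.Injective e) :
    avg (XX (b := b) e) = t * ((t : ℝ) / b) ^ (ζ * m) := by
  have h : avg (XX (b := b) e) = ∑ c, avg (Yc (b := b) e c) := avg_sum _ _
  rw [h]
  simp only [avg_Yc hb he]
  simp

lemma avg_RR (hb : 0 < b) (hζ : 0 < ζ) (hm : 0 < m)
    {e : Option (Fin ζ × Fin m) × Fin t → Fin n} (he : Function.Injective e) :
    avg (RR (b := b) e) = (((ζ : ℝ) - 1) / m) * (t * ((t : ℝ) / b) ^ (ζ * m)) := by
  rw [← avg_XX hb he]
  have h1 : avg (RR (b := b) e) = ∑ c, ∑ h : Fin ζ × Fin m → Fin t,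
      avg (fun ω : Sample n ζ b => indG e c h ω *
        normSq ((sparseStack ω).transpose.mulVec (xv e c h ω))) := by
    unfold RR
    rw [avg_sum]
    refine Finset.sum_congr rfl (fun c _ => ?_)
    rw [avg_sum]
  have h2 : avg (XX (b := b) e) = ∑ c, ∑ h : Fin ζ × Fin m → Fin t,
      avg (fun ω : Sample n ζ b => indG e c h ω) := by
    unfold XX
    rw [avg_sum]
    refine Finset.sum_congr rfl (fun c _ => ?_)
    rw [← avg_sum]
    congr 1
    funext ω
    rw [sum_indG]
  rw [h1, h2, Finset.mul_sum]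
  refine Finset.sum_congr rfl (fun c _ => ?_)
  rw [Finset.mul_sum]
  refine Finset.sum_congr rfl (fun h _ => ?_)
  unfold avg
  rw [sum_residual hζ hm he c h, mul_div_assoc]

lemma avg_XX_sq (hb : 0 < b) {e : Option (Fin ζ × Fin m) × Fin t → Fin n}
    (he : Function.Injective e) :
    avg (fun ω : Sample n ζ b => XX e ω * XX e ω) ≤
      (t : ℝ) ^ 2 * ((((t : ℝ) / b) ^ 2) ^ m + (((t : ℝ) / b) ^ 2 + (t : ℝ) / b) ^ m / b) ^ ζ +
      t * (((t : ℝ) / b) ^ 2 + (t : ℝ) / b) ^ (ζ * m) := by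
  set B1 := ((((t : ℝ) / b) ^ 2) ^ m + (((t : ℝ) / b) ^ 2 + (t : ℝ) / b) ^ m / b) ^ ζ with hB1
  set B2 := (((t : ℝ) / b) ^ 2 + (t : ℝ) / b) ^ (ζ * m) with hB2
  have hB1' : 0 ≤ B1 := by positivity
  have h1 : avg (fun ω : Sample n ζ b => XX e ω * XX e ω) = ∑ c, ∑ c',
      avg (fun ω : Sample n ζ b => Yc e c ω * Yc e c' ω) := by
    have : (fun ω : Sample n ζ b => XX e ω * XX e ω) =
        fun ω => ∑ c, ∑ c', Yc e c ω * Yc e c' ω := by
      funext ω
      unfold XX
      rw [Finset.sum_mul_sum]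
    rw [this, avg_sum]
    refine Finset.sum_congr rfl (fun c _ => ?_)
    rw [avg_sum]
  rw [h1]
  have h2 : ∀ c c' : Fin t, avg (fun ω : Sample n ζ b => Yc e c ω * Yc e c' ω) ≤
      B1 + if c = c' then B2 else 0 := by
    intro c c'
    by_cases h : c = c'
    · subst h
      rw [if_pos rfl]
      have := avg_Yc_sq (b := b) hb he c
      linarith
    · rw [if_neg h, add_zero]
      exact avg_Yc_Yc hb he h
  calc _ ≤ ∑ c : Fin t, ∑ c' : Fin t, (B1 + if c = c' then B2 else 0) :=
        Finset.sum_le_sum (fun c _ => Finset.sum_le_sum (fun c' _ => h2 c c'))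
    _ = _ := by
        simp only [Finset.sum_add_distrib, Finset.sum_const, Finset.card_univ, Fintype.card_fin,
          nsmul_eq_mul, Finset.sum_ite_eq, Finset.mem_univ, if_true]
        ring

lemma prob_eq_avg (E : Set (Sample n ζ b)) [DecidablePred (· ∈ E)] :
    prob E = avg (fun ω : Sample n ζ b => if ω ∈ E then (1 : ℝ) else 0) := by
  unfold prob avg
  congr 1
  rw [Finset.sum_boole, Set.ncard_eq_toFinset_card']
  congr 2
  ext ω
  simp

/-- The main probability estimate. -/
lemma prob_le (hb : 0 < b) (hζ : 0 < ζ) (hm : 0 < m) (ht : 0 < t) {α : ℝ} (hα : 0 < α)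
    {e : Option (Fin ζ × Fin m) × Fin t → Fin n} (he : Function.Injective e)
    (E : Set (Sample n ζ b))
    (hE : ∀ ω ∈ E, ∀ c h, α * normSq (xv e c h ω) ≤
      normSq ((sparseStack ω).transpose.mulVec (xv e c h ω))) :
    prob E ≤ 4 * ((1 + (1 + (b : ℝ) / t) ^ m / b) ^ ζ - 1 + (1 + (b : ℝ) / t) ^ (ζ * m) / t) +
      2 * (ζ - 1) / (m * α) := by
  classical
  set l : ℝ := (t : ℝ) / b with hl
  have hb' : (0 : ℝ) < b := by exact_mod_cast hb
  have ht' : (0 : ℝ) < t := by exact_mod_cast ht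
  have hm' : (0 : ℝ) < m := by exact_mod_cast hm
  have hl0 : 0 < l := by positivity
  set μ : ℝ := t * l ^ (ζ * m) with hμ
  have hμ0 : 0 < μ := by positivity
  haveI : Nonempty (Fin b) := ⟨⟨0, hb⟩⟩
  haveI : Nonempty (Sample n ζ b) := inferInstance
  have hR0 : ∀ ω : Sample n ζ b, 0 ≤ RR e ω := fun ω =>
    Finset.sum_nonneg (fun c _ => Finset.sum_nonneg (fun h _ =>
      mul_nonneg (indG_nonneg _ _ _ _) (normSq_nonneg _)))
  have hER : ∀ ω ∈ E, α * XX e ω ≤ RR e ω := by
    intro ω hω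
    unfold XX RR
    rw [Finset.mul_sum]
    refine Finset.sum_le_sum (fun c _ => ?_)
    rw [← sum_indG, Finset.mul_sum]
    refine Finset.sum_le_sum (fun h _ => ?_)
    have h1 := hE ω hω c h
    have h2 := one_le_normSq_xv he c h ω
    have h3 := indG_nonneg e c h ω
    have h4 : α ≤ normSq ((sparseStack ω).transpose.mulVec (xv e c h ω)) := by
      nlinarith
    nlinarith
  have hpt : ∀ ω : Sample n ζ b, (if ω ∈ E then (1 : ℝ) else 0) ≤
      (4 / μ ^ 2) * (XX e ω * XX e ω) + ((-(8 / μ)) * XX e ω + (4 + (2 / (α * μ)) * RR e ω)) := by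
    intro ω
    have h0 : (4 / μ ^ 2) * (XX e ω * XX e ω) + ((-(8 / μ)) * XX e ω + (4 + (2 / (α * μ)) * RR e ω))
        = (4 / μ ^ 2) * (XX e ω - μ) ^ 2 + (2 / (α * μ)) * RR e ω := by
      field_simp
      ring
    rw [h0]
    have hnn : 0 ≤ (4 / μ ^ 2) * (XX e ω - μ) ^ 2 := by positivity
    have hnn2 : 0 ≤ (2 / (α * μ)) * RR e ω := mul_nonneg (by positivity) (hR0 ω)
    by_cases hω : ω ∈ E
    · rw [if_pos hω]
      by_cases hX : XX e ω ≤ μ / 2
      · have h5 : 1 ≤ (4 / μ ^ 2) * (XX e ω - μ) ^ 2 := by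
          rw [div_mul_eq_mul_div, le_div_iff₀ (by positivity)]
          nlinarith
        linarith
      · push Not at hX
        have h6 := hER ω hω
        have h5 : 1 ≤ (2 / (α * μ)) * RR e ω := by
          rw [div_mul_eq_mul_div, le_div_iff₀ (by positivity)]
          nlinarith
        linarith
    · rw [if_neg hω]
      linarith
  have h7 : avg (fun ω : Sample n ζ b =>
      (4 / μ ^ 2) * (XX e ω * XX e ω) + ((-(8 / μ)) * XX e ω + (4 + (2 / (α * μ)) * RR e ω))) =
      (4 / μ ^ 2) * avg (fun ω : Sample n ζ b => XX e ω * XX e ω) + ((-(8 / μ)) * avg (XX (b := b) e)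
        + (4 + (2 / (α * μ)) * avg (RR (b := b) e))) := by
    have hadd : ∀ f g : Sample n ζ b → ℝ, avg (fun ω => f ω + g ω) = avg f + avg g := by
      intro f g
      unfold avg
      rw [Finset.sum_add_distrib, add_div]
    rw [hadd, hadd, hadd, avg_mul_left, avg_mul_left, avg_mul_left, avg_const]
  rw [prob_eq_avg]
  refine (avg_mono hpt).trans ?_
  rw [h7, avg_XX hb he, avg_RR hb hζ hm he]
  have h8 := avg_XX_sq (b := b) hb he
  rw [← hl] at h8
  have h9 : (4 / μ ^ 2) * avg (fun ω : Sample n ζ b => XX e ω * XX e ω) ≤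
      (4 / μ ^ 2) * ((t : ℝ) ^ 2 * ((l ^ 2) ^ m + (l ^ 2 + l) ^ m / b) ^ ζ +
      t * (l ^ 2 + l) ^ (ζ * m)) := mul_le_mul_of_nonneg_left h8 (by positivity)
  have h10 : (l ^ 2 + l) = l ^ 2 * (1 + (b : ℝ) / t) := by
    rw [hl]
    field_simp
  have h11 : (4 / μ ^ 2) * ((t : ℝ) ^ 2 * ((l ^ 2) ^ m + (l ^ 2 + l) ^ m / b) ^ ζ +
      t * (l ^ 2 + l) ^ (ζ * m)) = 4 * ((1 + (1 + (b : ℝ) / t) ^ m / b) ^ ζ +
      (1 + (b : ℝ) / t) ^ (ζ * m) / t) := by
    rw [h10, mul_pow (l ^ 2) _ m, mul_pow (l ^ 2) _ (ζ * m), hμ, mul_pow (t : ℝ) _ 2]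
    have h12 : (l ^ 2) ^ m + (l ^ 2) ^ m * (1 + (b : ℝ) / t) ^ m / b =
        (l ^ 2) ^ m * (1 + (1 + (b : ℝ) / t) ^ m / b) := by ring
    have h13 : ((l ^ 2) ^ m) ^ ζ = (l ^ (ζ * m)) ^ 2 := by
      rw [← pow_mul, ← pow_mul, ← pow_mul]
      congr 1
      ring
    have h14 : (l ^ 2) ^ (ζ * m) = (l ^ (ζ * m)) ^ 2 := by
      rw [← pow_mul, ← pow_mul]
      congr 1
      ring
    rw [h12, mul_pow _ _ ζ, h13, h14]
    have h15 : l ^ (ζ * m) ≠ 0 := by positivity
    field_simp
  rw [h11] at h9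
  rw [← hl, ← hμ]
  have h16 : (-(8 / μ)) * μ = -8 := by field_simp
  have h17 : (2 / (α * μ)) * (((ζ : ℝ) - 1) / m * μ) = 2 * (ζ - 1) / (m * α) := by
    field_simp
  rw [h16, h17]
  linarith

end Prob

section Final

/-- The span of the first `r` basis vectors. -/
def coordSub (n r : ℕ) : Submodule ℝ (Fin n → ℝ) where
  carrier := {x | ∀ i : Fin n, r ≤ i.val → x i = 0}
  add_mem' := by
    intro x y hx hy i hi
    simp [hx i hi, hy i hi]
  zero_mem' := by
    intro i _
    rfl
  smul_mem' := by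
    intro c x hx i hi
    simp [hx i hi]

lemma finrank_coordSub {n r : ℕ} (h : r ≤ n) : Module.finrank ℝ (coordSub n r) = r := by
  let E : coordSub n r ≃ₗ[ℝ] (Fin r → ℝ) :=
    { toFun := fun x k => x.1 (Fin.castLE h k)
      map_add' := fun x y => rfl
      map_smul' := fun c x => rfl
      invFun := fun y => ⟨fun i => if hi : i.val < r then y ⟨i.val, hi⟩ else 0, by
        intro i hi
        simp only [dif_neg (not_lt.mpr hi)]⟩
      left_inv := by
        intro x
        apply Subtype.ext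
        funext i
        by_cases hi : i.val < r
        · simp only [hi, dif_pos]
          rfl
        · simp only [hi, dif_neg, not_false_eq_true]
          exact (x.2 i (not_lt.mp hi)).symm
      right_inv := by
        intro y
        funext k
        simp }
  rw [LinearEquiv.finrank_eq E, Module.finrank_fin_fun]

lemma single_mem_coordSub {n r : ℕ} {i : Fin n} (hi : i.val < r) (v : ℝ) :
    Pi.single i v ∈ coordSub n r := by
  intro k hk
  have h : k ≠ i := by
    rintro rfl
    omega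
  simp [h]

/-- Fewer rows than columns: there is a kernel. -/
lemma not_inj_of_lt {n r ζ b : ℕ} (hrn : r ≤ n) (h : b * ζ < r) {α : ℝ} (hα : 0 < α)
    (ω : Sample n ζ b) : ¬ ∀ x ∈ coordSub n r, α * normSq x ≤
      normSq ((sparseStack ω).transpose.mulVec x) := by
  intro hcon
  let f : coordSub n r →ₗ[ℝ] (Fin ζ × Fin b → ℝ) :=
    (Matrix.mulVecLin (sparseStack ω).transpose).comp (coordSub n r).subtype
  have hk : LinearMap.ker f ≠ ⊥ := by
    apply LinearMap.ker_ne_bot_of_finrank_lt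
    rw [finrank_coordSub hrn, Module.finrank_fintype_fun_eq_card, Fintype.card_prod,
      Fintype.card_fin, Fintype.card_fin]
    rw [mul_comm]
    exact h
  obtain ⟨x, hx, hx0⟩ := (Submodule.ne_bot_iff _).mp hk
  have h1 := hcon x.1 x.2
  have h2 : (sparseStack ω).transpose.mulVec x.1 = 0 := hx
  rw [h2] at h1
  have h3 : normSq (0 : Fin ζ × Fin b → ℝ) = 0 := by simp [normSq]
  rw [h3] at h1
  apply hx0
  apply Subtype.ext
  funext i
  have h4 : x.1 i ^ 2 ≤ normSq x.1 :=
    Finset.single_le_sum (f := fun i => x.1 i ^ 2) (fun i _ => sq_nonneg _) (Finset.mem_univ i)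
  have h5 : normSq x.1 ≤ 0 := by
    by_contra h6
    push Not at h6
    nlinarith [mul_pos hα h6]
  have h7 : x.1 i ^ 2 ≤ 0 := h4.trans h5
  have h8 : x.1 i = 0 := by
    have := sq_nonneg (x.1 i)
    exact pow_eq_zero_iff (two_ne_zero) |>.mp (le_antisymm h7 this)
  simpa using h8

/-- **Constant sparsity never gives an oblivious subspace injection at proportional embedding
dimension.** For all constants `C₁, C₂`, `α > 0` and `δ < 1` and for all `r ≥ r₀ (C₁, C₂, α, δ)`:
for every `n ≥ r`, every `1 ≤ ζ ≤ C₁` and every `b ≥ 1` with `k = b ζ ≤ C₂ r` there is an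
`r`-dimensional subspace `V` of `ℝ ^ n` such that the SparseStack matrix `Ω` with these parameters
satisfies `α ‖x‖² ≤ ‖Ωᵀ x‖²` for all `x ∈ V` with probability smaller than `1 - δ`. -/
theorem result (C₁ C₂ α δ : ℝ) (hα : 0 < α) (hδ : δ < 1) :
    ∃ r₀ : ℕ, ∀ r n ζ b : ℕ, r₀ ≤ r → r ≤ n → 1 ≤ ζ → (ζ : ℝ) ≤ C₁ → 1 ≤ b →
      ((b * ζ : ℕ) : ℝ) ≤ C₂ * r →
      ∃ V : Submodule ℝ (Fin n → ℝ), Module.finrank ℝ V = r ∧
        prob {ω : Sample n ζ b | ∀ x ∈ V, α * normSq x ≤
          normSq ((sparseStack ω).transpose.mulVec x)} < 1 - δ := by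
  set ε : ℝ := 1 - δ with hε
  have hε0 : 0 < ε := by rw [hε]; linarith
  set Z : ℕ := ⌈C₁⌉₊ with hZ
  set m : ℕ := ⌈8 * (Z : ℝ) / (α * ε)⌉₊ + 1 with hm
  have hm1 : 0 < m := by omega
  have hm2 : 2 * (Z : ℝ) / (m * α) ≤ ε / 4 := by
    have h1 : 8 * (Z : ℝ) / (α * ε) ≤ m := by
      rw [hm]
      push_cast
      linarith [Nat.le_ceil (8 * (Z : ℝ) / (α * ε))]
    rw [div_le_iff₀ (by positivity)] at h1
    rw [div_le_iff₀ (by positivity)]
    nlinarith
  set D : ℕ := 1 + Z * m with hD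
  have hD1 : 0 < D := by omega
  set Λ : ℝ := 1 + 2 * D * |C₂| with hΛ
  have hΛ1 : 1 ≤ Λ := by rw [hΛ]; have : 0 ≤ 2 * (D : ℝ) * |C₂| := by positivity
                         linarith
  set K₁ : ℝ := Λ ^ m * Z with hK₁
  set K₂ : ℝ := Λ ^ (Z * m) * (2 * D) with hK₂
  have hlim : Filter.Tendsto (fun r : ℕ => 4 * ((1 + K₁ / r) ^ Z - 1 + K₂ / r)) Filter.atTop
      (nhds (4 * ((1 + 0) ^ Z - 1 + 0))) := by
    have h1 := tendsto_const_div_atTop_nhds_zero_nat K₁
    have h2 := tendsto_const_div_atTop_nhds_zero_nat K₂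
    exact (((h1.const_add 1).pow Z).sub_const 1 |>.add h2).const_mul 4
  have h0 : (4 * ((1 + 0 : ℝ) ^ Z - 1 + 0)) = 0 := by simp
  rw [h0] at hlim
  obtain ⟨r₁, hr₁⟩ := (hlim.eventually (gt_mem_nhds (show (0 : ℝ) < ε / 2 by linarith))).exists_forall_of_atTop
  refine ⟨max r₁ (2 * D), fun r n ζ b hr hrn hζ hζC hb hk => ⟨coordSub n r,
    finrank_coordSub hrn, ?_⟩⟩
  have hr1 : r₁ ≤ r := le_trans (le_max_left _ _) hr
  have hr2 : 2 * D ≤ r := le_trans (le_max_right _ _) hr
  have hζZ : ζ ≤ Z := by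
    have : (ζ : ℝ) ≤ Z := hζC.trans (Nat.le_ceil C₁)
    exact_mod_cast this
  have hb0 : 0 < b := hb
  have hζ0 : 0 < ζ := hζ
  by_cases hlt : b * ζ < r
  · -- trivial case
    have hE : {ω : Sample n ζ b | ∀ x ∈ coordSub n r, α * normSq x ≤
          normSq ((sparseStack ω).transpose.mulVec x)} = ∅ := by
      ext ω
      simp only [Set.mem_ofPred_eq, Set.mem_empty_iff_false, iff_false]
      exact not_inj_of_lt hrn hlt hα ω
    rw [hE]
    unfold prob
    simp only [Set.ncard_empty, Nat.cast_zero, zero_div]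
    exact hε0
  · push Not at hlt
    set t : ℕ := r / D with ht
    have hr0 : 0 < r := by omega
    have hrR : (0 : ℝ) < r := by exact_mod_cast hr0
    have hDt : D * t ≤ r := Nat.mul_div_le r D
    have ht0 : 0 < t := Nat.div_pos (by omega) hD1
    have htR : (r : ℝ) / (2 * D) ≤ t := by
      have h1 : r < D * (t + 1) := by
        rw [ht]
        exact Nat.lt_mul_div_succ r hD1
      have h2 : (r : ℝ) < D * (t + 1) := by exact_mod_cast h1
      have h3 : (2 * D : ℝ) ≤ r := by exact_mod_cast hr2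
      have hDR : (0 : ℝ) < D := by exact_mod_cast hD1
      rw [div_le_iff₀ (by positivity)]
      nlinarith
    -- the embedding of the structure
    have hcard : Fintype.card (Option (Fin ζ × Fin m) × Fin t) ≤ Fintype.card (Fin r) := by
      simp only [Fintype.card_prod, Fintype.card_option, Fintype.card_fin]
      refine le_trans (Nat.mul_le_mul_right t ?_) hDt
      have h1 := Nat.mul_le_mul_right m hζZ
      omega
    obtain ⟨e'⟩ := Function.Embedding.nonempty_of_card_le hcard
    let e : Option (Fin ζ × Fin m) × Fin t → Fin n := fun q => Fin.castLE hrn (e' q)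
    have he : Function.Injective e := fun q q' h => e'.injective (Fin.castLE_injective hrn h)
    have hmem : ∀ (c : Fin t) (h : Fin ζ × Fin m → Fin t) (ω : Sample n ζ b),
        xv e c h ω ∈ coordSub n r := by
      intro c h ω
      have hval : ∀ q, (e q).val < r := fun q => (e' q).2
      refine Submodule.sub_mem _ (single_mem_coordSub (hval _) _) ?_
      refine Submodule.smul_mem _ _ (Submodule.sum_mem _ (fun jl _ => ?_))
      exact Submodule.smul_mem _ _ (single_mem_coordSub (hval _) _)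
    have hmain := prob_le hb0 hζ0 hm1 ht0 hα he
      {ω : Sample n ζ b | ∀ x ∈ coordSub n r, α * normSq x ≤
          normSq ((sparseStack ω).transpose.mulVec x)} (fun ω hω c h => hω _ (hmem c h ω))
    refine lt_of_le_of_lt hmain ?_
    have hbR : (0 : ℝ) < b := by exact_mod_cast hb0
    have htR0 : (0 : ℝ) < t := by exact_mod_cast ht0
    have hDR : (0 : ℝ) < D := by exact_mod_cast hD1
    have hbC : (b : ℝ) ≤ |C₂| * r := by
      have h1 : (b : ℝ) ≤ ((b * ζ : ℕ) : ℝ) := by
        exact_mod_cast Nat.le_mul_of_pos_right b hζ0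
      exact h1.trans (hk.trans (mul_le_mul_of_nonneg_right (le_abs_self _) hrR.le))
    have hbt : (b : ℝ) / t ≤ 2 * D * |C₂| := by
      rw [div_le_iff₀ htR0]
      calc (b : ℝ) ≤ |C₂| * r := hbC
        _ = 2 * D * |C₂| * (r / (2 * D)) := by field_simp
        _ ≤ 2 * D * |C₂| * t := mul_le_mul_of_nonneg_left htR (by positivity)
    have hΛb : 1 + (b : ℝ) / t ≤ Λ := by rw [hΛ]; linarith
    have h1b : 1 ≤ 1 + (b : ℝ) / t := by
      have : (0 : ℝ) ≤ (b : ℝ) / t := by positivity
      linarith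
    have hbinv : 1 / (b : ℝ) ≤ Z / r := by
      rw [div_le_div_iff₀ hbR hrR]
      have h1 : (r : ℝ) ≤ ((b * ζ : ℕ) : ℝ) := by exact_mod_cast hlt
      have h2 : ((b * ζ : ℕ) : ℝ) ≤ ((Z * b : ℕ) : ℝ) := by
        have : b * ζ ≤ Z * b := by
          rw [mul_comm]
          exact Nat.mul_le_mul_right b hζZ
        exact_mod_cast this
      push_cast at h1 h2
      linarith
    have hA : (1 + (1 + (b : ℝ) / t) ^ m / b) ^ ζ ≤ (1 + K₁ / r) ^ Z := by
      have h1 : 1 + (1 + (b : ℝ) / t) ^ m / b ≤ 1 + K₁ / r := by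
        have h2 : (1 + (b : ℝ) / t) ^ m / b ≤ K₁ / r := by
          calc (1 + (b : ℝ) / t) ^ m / b = (1 + (b : ℝ) / t) ^ m * (1 / b) := by ring
            _ ≤ Λ ^ m * (Z / r) := by
                apply mul_le_mul (pow_le_pow_left₀ (by linarith) hΛb m) hbinv (by positivity)
                  (by positivity)
            _ = K₁ / r := by rw [hK₁]; ring
        linarith
      have h3 : (0 : ℝ) ≤ (1 + (b : ℝ) / t) ^ m / b := by positivity
      calc (1 + (1 + (b : ℝ) / t) ^ m / b) ^ ζ ≤ (1 + K₁ / r) ^ ζ :=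
            pow_le_pow_left₀ (by linarith) h1 ζ
        _ ≤ (1 + K₁ / r) ^ Z := pow_le_pow_right₀ (by linarith) hζZ
    have hB : (1 + (b : ℝ) / t) ^ (ζ * m) / t ≤ K₂ / r := by
      have h1 : 1 / (t : ℝ) ≤ 2 * D / r := by
        rw [div_le_div_iff₀ htR0 hrR]
        rw [div_le_iff₀ (by positivity)] at htR
        linarith
      calc (1 + (b : ℝ) / t) ^ (ζ * m) / t = (1 + (b : ℝ) / t) ^ (ζ * m) * (1 / t) := by ring
        _ ≤ Λ ^ (Z * m) * (2 * D / r) := by
            apply mul_le_mul _ h1 (by positivity) (by positivity)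
            calc (1 + (b : ℝ) / t) ^ (ζ * m) ≤ Λ ^ (ζ * m) :=
                  pow_le_pow_left₀ (by linarith) hΛb _
              _ ≤ Λ ^ (Z * m) := pow_le_pow_right₀ hΛ1 (Nat.mul_le_mul_right m hζZ)
        _ = K₂ / r := by rw [hK₂]; ring
    have hC : 2 * ((ζ : ℝ) - 1) / (m * α) ≤ ε / 4 := by
      refine le_trans ?_ hm2
      apply div_le_div_of_nonneg_right _ (by positivity)
      have : (ζ : ℝ) ≤ Z := by exact_mod_cast hζZ
      linarith
    have hD := hr₁ r hr1
    have : 4 * ((1 + (1 + (b : ℝ) / t) ^ m / b) ^ ζ - 1 + (1 + (b : ℝ) / t) ^ (ζ * m) / t) ≤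
        4 * ((1 + K₁ / r) ^ Z - 1 + K₂ / r) := by linarith
    linarith

end Final

end Pool.Agent.Results.MP_59a663_pr.NoConstantSparsity
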